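import Pool.Agent.V8H35.RO.R3

set_option autoImplicit false

open Finset Filter Topology

namespace Pool.Agent.V8H35.RO

open Pool.Agent.H197R2.PG

lemma PW_prod_le (W z Y : ℕ) (hY : 0 < Y) (h : 2 * (z : ℝ) ≤ Real.log Y) : (∏ p ∈ PW W z, p) ≤ Y := by
  have h1 : (∏ p ∈ PW W z, p) ≤ primorial z := by
    unfold primorial
    apply Finset.prod_le_prod_of_subset_of_one_le'
    · intro p hp
      unfold PW at hp
      rw [mem_filter, mem_Icc] at hp
      rw [mem_filter, mem_range]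
      exact ⟨by omega, hp.2.1⟩
    · intro p hp _
      exact (mem_filter.mp hp).2.one_lt.le
  have h2 := h1.trans (primorial_le_four_pow z)
  have h3 : ((4 : ℝ)) ^ z ≤ Y := by
    have h4 : (4 : ℝ) ≤ Real.exp 2 := by
      have h5 : Real.exp 2 = Real.exp 1 ^ 2 := by
        rw [← Real.exp_nat_mul]
        norm_num
      have h6 := Real.exp_one_gt_d9
      nlinarith
    calc (4 : ℝ) ^ z ≤ (Real.exp 2) ^ z := pow_le_pow_left₀ (by norm_num) h4 z
      _ = Real.exp (2 * z) := by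
          rw [← Real.exp_nat_mul]
          congr 1
          ring
      _ ≤ Real.exp (Real.log Y) := Real.exp_le_exp.mpr h
      _ = Y := Real.exp_log (by exact_mod_cast hY)
  have h4 : (4 : ℕ) ^ z ≤ Y := by exact_mod_cast h3
  exact h2.trans h4

lemma P_le : ∃ C : ℝ, 1 ≤ C ∧ ∀ W : ℕ, 3 ≤ W →
    ∏ p ∈ (Icc 1 W).filter Nat.Prime, (1 + 1 / (p : ℝ)) ≤ C * Real.log W := by
  obtain ⟨C0, hC0⟩ := Pool.Agent.Helper601.Mertens.mertens_inv
  refine ⟨Real.exp |C0|, Real.one_le_exp (by positivity), fun W hW => ?_⟩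
  have hlog : 0 < Real.log W := Real.log_pos (by exact_mod_cast (by omega : 1 < W))
  have h1 : ∏ p ∈ (Icc 1 W).filter Nat.Prime, (1 + 1 / (p : ℝ)) ≤
      ∏ p ∈ (Icc 1 W).filter Nat.Prime, Real.exp (1 / (p : ℝ)) := by
    apply Finset.prod_le_prod
    · intro p _
      positivity
    · intro p _
      have := Real.add_one_le_exp (1 / (p : ℝ))
      linarith
  refine h1.trans ?_
  rw [← Real.exp_sum]
  have h2 := (abs_le.mp (hC0 W hW)).2
  have h3 := le_abs_self C0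
  calc Real.exp (∑ p ∈ (Icc 1 W).filter Nat.Prime, 1 / (p : ℝ))
      ≤ Real.exp (|C0| + Real.log (Real.log W)) := Real.exp_le_exp.mpr (by linarith)
    _ = Real.exp |C0| * Real.log W := by rw [Real.exp_add, Real.exp_log hlog]

/-- a class modulo `M` with many elements -/
lemma pigeon (S : Finset ℕ) (M : ℕ) (hM : 0 < M) : ∃ r : ℕ, #S ≤ M * #(S.filter (fun a => a % M = r)) := by
  classical
  by_contra hcon
  push Not at hcon
  have h1 : #S = ∑ r ∈ range M, #(S.filter (fun a => a % M = r)) :=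
    Finset.card_eq_sum_card_fiberwise (fun a _ => by
      rw [mem_coe, mem_range]
      exact Nat.mod_lt a hM)
  have h2 : M * #S = ∑ r ∈ range M, M * #(S.filter (fun a => a % M = r)) := by
    conv_lhs => rw [h1]
    rw [Finset.mul_sum]
  have h3 : ∑ r ∈ range M, M * #(S.filter (fun a => a % M = r)) < ∑ r ∈ range M, #S := by
    apply Finset.sum_lt_sum_of_nonempty
    · exact ⟨0, mem_range.mpr hM⟩
    · intro r _
      exact hcon r
  rw [sum_const, card_range, smul_eq_mul] at h3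
  omega

/-- the last computation -/
lemma finish {x L K q X1 C2 D l4 R : ℝ} (hx : 0 < x) (hL : 0 < L) (hKL : L ≤ K) (hC2 : 1 ≤ C2)
    (hD : 0 < D) (hl4 : 0 < l4) (h2 : 2 / (C2 * D) ≤ l4) (hQ : x / (2 * L) ≤ q) (hR : 0 ≤ R)
    (hmain : (K * q) ^ 2 ≤ R * (K * q + C2 * X1 * x / L ^ 2)) (hX : X1 ≤ K ^ 2 * (D * l4)) :
    x ≤ R * (5 * (C2 * D * l4)) := by
  have hK0 : 0 < K := by linarith
  set t : ℝ := K * q with ht
  have ht1 : K * x / (2 * L) ≤ t := by
    rw [ht]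
    calc K * x / (2 * L) = K * (x / (2 * L)) := by ring
      _ ≤ _ := mul_le_mul_of_nonneg_left hQ hK0.le
  have htpos : 0 < t := lt_of_lt_of_le (by positivity) ht1
  have ht2 : x / 2 ≤ t := by
    refine le_trans ?_ ht1
    rw [div_le_div_iff₀ (by norm_num) (by positivity)]
    nlinarith
  have hZ : C2 * X1 * x / L ^ 2 ≤ 4 * (C2 * D * l4) * t ^ 2 / x := by
    have g1 : C2 * X1 * x / L ^ 2 ≤ C2 * (K ^ 2 * (D * l4)) * x / L ^ 2 := by
      gcongr
    refine g1.trans ?_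
    have g2 : (K * x / (2 * L)) ^ 2 ≤ t ^ 2 := by gcongr
    have g3 : C2 * (K ^ 2 * (D * l4)) * x / L ^ 2 =
        4 * (C2 * D * l4) * (K * x / (2 * L)) ^ 2 / x := by
      field_simp
      ring
    rw [g3]
    gcongr
  have ht3 : t ≤ (C2 * D * l4) * t ^ 2 / x := by
    have g1 : 2 ≤ C2 * D * l4 := by
      rw [div_le_iff₀ (by positivity)] at h2
      linarith
    have g2 : t ≤ 2 * t ^ 2 / x := by
      rw [le_div_iff₀ hx]
      nlinarith
    refine g2.trans ?_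
    gcongr
  have g1 : t ^ 2 ≤ R * ((5 * (C2 * D * l4)) * t ^ 2 / x) := by
    refine hmain.trans ?_
    apply mul_le_mul_of_nonneg_left _ hR
    calc t + C2 * X1 * x / L ^ 2
        ≤ (C2 * D * l4) * t ^ 2 / x + 4 * (C2 * D * l4) * t ^ 2 / x := by linarith
      _ = (5 * (C2 * D * l4)) * t ^ 2 / x := by ring
  have g3 : t ^ 2 * x ≤ t ^ 2 * (R * (5 * (C2 * D * l4))) := by
    calc t ^ 2 * x ≤ (R * ((5 * (C2 * D * l4)) * t ^ 2 / x)) * x := by gcongr
      _ = t ^ 2 * (R * (5 * (C2 * D * l4))) := by field_simp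
  exact le_of_mul_le_mul_left g3 (by positivity)

/-- the bound for the second moment -/
lemma finish2 {S lr P C1 e l4 X1 M1 N G : ℝ} (hS : 0 ≤ S) (hlr : 1 ≤ lr) (hP : 1 ≤ P) (hC1 : 1 ≤ C1)
    (he : 1 ≤ e) (hl4 : 0 < l4) (f6 : 5 * lr ≤ l4) (hM1 : M1 ≤ S) (hN : N ≤ 2 * lr)
    (hG : G ≤ C1 * e * (2 * l4) * S ^ 2)
    (h : X1 ≤ S * lr ^ 2 * M1 + 2 * P * lr * (N * S ^ 2 + G)) :
    X1 ≤ (S * lr) ^ 2 * ((5 * P * C1 * e / lr) * l4) := by
  have h5 : X1 ≤ S * lr ^ 2 * S + 2 * P * lr * (2 * lr * S ^ 2 + C1 * e * (2 * l4) * S ^ 2) := by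
    refine h.trans ?_
    gcongr
  refine h5.trans ?_
  have h6 : S * lr ^ 2 * S + 2 * P * lr * (2 * lr * S ^ 2 + C1 * e * (2 * l4) * S ^ 2) =
      S ^ 2 * lr * (lr * (1 + 4 * P) + 4 * P * C1 * e * l4) := by
    ring
  have h7 : (S * lr) ^ 2 * (5 * P * C1 * e / lr * l4) = S ^ 2 * lr * (5 * P * C1 * e * l4) := by
    field_simp
  rw [h6, h7]
  apply mul_le_mul_of_nonneg_left _ (by positivity)
  have h8 : lr * (1 + 4 * P) ≤ P * l4 := by
    calc lr * (1 + 4 * P) ≤ lr * (5 * P) := by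
          apply mul_le_mul_of_nonneg_left (by linarith) (by linarith)
      _ = P * (5 * lr) := by ring
      _ ≤ P * l4 := mul_le_mul_of_nonneg_left f6 (by linarith)
  have h9 : P * l4 ≤ P * C1 * e * l4 := by
    have h10 : 1 ≤ C1 * e := by nlinarith
    have h11 : 0 ≤ P * l4 := by positivity
    calc P * l4 = (P * l4) * 1 := by ring
      _ ≤ (P * l4) * (C1 * e) := mul_le_mul_of_nonneg_left h10 h11
      _ = _ := by ring
  linarith

/-- **Sums of a prime and an element of a string.** -/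
theorem strings : ∃ A : ℝ, 0 < A ∧ ∀ (u l B : ℕ) (G : Set ℕ), 1 ≤ u →
    (∀ a ∈ G, ∀ i ≤ l, 3 ≤ a + i * u ∧ (a + i * u) % 2 = 1) →
    (∃ y0 : ℕ, ∀ y : ℕ, y0 ≤ y → ∃ S : Finset ℕ, S ⊆ Icc 1 y ∧ (∀ a ∈ S, a ∈ G ∧ a + l * u ≤ y) ∧
      (y : ℝ) ≤ #S * Real.log y ^ B) →
    ∃ x0 : ℕ, ∀ x : ℕ, x0 ≤ x → ∃ T : Finset ℕ, T ⊆ Icc 3 x ∧
      (∀ n ∈ T, ∃ a ∈ G, ∃ i ≤ l, ((a + i * u : ℕ) : ℝ) ≤ Real.log x ^ 2 ∧
        ∃ q : ℕ, q.Prime ∧ (a + i * u) + q = 2 * n) ∧
      ((l : ℝ) + 1) / (A * Real.log ((2 * l + 3) * u : ℕ)) *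
        (x / Real.log (Real.log (Real.log (Real.log x)))) ≤ #T := by
  classical
  obtain ⟨C1, hC1, havg⟩ := GG_avg
  obtain ⟨C2, hC2, u0, hsm⟩ := second_moment
  obtain ⟨C3, hC3, hPl⟩ := P_le
  set e : ℝ := Real.exp 1 with he
  have he1 : 1 ≤ e := Real.one_le_exp (by norm_num)
  refine ⟨25 * C2 * C1 * e * C3, by positivity, ?_⟩
  intro u l B G hu hG hd
  obtain ⟨y0, hd⟩ := hd
  set W : ℕ := (2 * l + 3) * u with hW
  have hW3 : 3 ≤ W := by nlinarith
  have huW : u ≤ W := by nlinarith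
  have hNW : 2 * l + 1 ≤ W := by nlinarith
  have hlogW : 0 < Real.log (W : ℝ) := Real.log_pos (by exact_mod_cast (by omega : 1 < W))
  set P : ℝ := ∏ p ∈ (Icc 1 W).filter Nat.Prime, (1 + 1 / (p : ℝ)) with hP
  have hP1 : 1 ≤ P := one_le_prod_one_add _
  have hPW := hPl W hW3
  rw [← hP] at hPW
  set M : ℕ := l * u + 1 with hM
  set M1 : ℝ := ∑ h ∈ range (l * u + 1), gg (2 * h) with hM1
  set lr : ℝ := (l : ℝ) + 1 with hlr
  have hlr1 : 1 ≤ lr := by
    rw [hlr]
    have : (0 : ℝ) ≤ l := Nat.cast_nonneg l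
    linarith
  set D : ℝ := 5 * P * C1 * e / lr with hD
  have hD0 : 0 < D := by positivity
  -- eventual facts
  have hlogt : Tendsto (fun x : ℕ => Real.log (x : ℝ)) atTop atTop :=
    Real.tendsto_log_atTop.comp tendsto_natCast_atTop_atTop
  have hloglog : Tendsto (fun L : ℝ => Real.log (Real.log L)) atTop atTop :=
    Real.tendsto_log_atTop.comp Real.tendsto_log_atTop
  have hlogloglog : Tendsto (fun L : ℝ => Real.log (Real.log (Real.log L))) atTop atTop :=
    Real.tendsto_log_atTop.comp hloglog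
  have ev1 : ∀ᶠ L : ℝ in atTop, (2 * Real.log L) ^ (B + 1) ≤ L / 2 := ev_log (B + 1)
  have evq : ∀ᶠ ℓ : ℝ in atTop, ((2 * l + 1 : ℕ) : ℝ) * ((B + 1) * (1 + ℓ) + 4 * M + 5) ≤ ℓ ^ 2 := by
    filter_upwards [eventually_ge_atTop (((2 * l + 1 : ℕ) : ℝ) * (2 * (B + 1) + 4 * M + 5)),
      eventually_ge_atTop (1 : ℝ)] with ℓ h1 h2
    have h3 : ((B : ℝ) + 1) * (1 + ℓ) + 4 * M + 5 ≤ (2 * (B + 1) + 4 * M + 5) * ℓ := by
      have h4 : (0 : ℝ) ≤ M := Nat.cast_nonneg _
      have h5 : (0 : ℝ) ≤ B := Nat.cast_nonneg _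
      nlinarith
    calc ((2 * l + 1 : ℕ) : ℝ) * ((B + 1) * (1 + ℓ) + 4 * M + 5)
        ≤ ((2 * l + 1 : ℕ) : ℝ) * ((2 * (B + 1) + 4 * M + 5) * ℓ) :=
          mul_le_mul_of_nonneg_left h3 (Nat.cast_nonneg _)
      _ = (((2 * l + 1 : ℕ) : ℝ) * (2 * (B + 1) + 4 * M + 5)) * ℓ := by ring
      _ ≤ ℓ * ℓ := mul_le_mul_of_nonneg_right h1 (by linarith)
      _ = ℓ ^ 2 := by ring
  have ev : ∀ᶠ L : ℝ in atTop, (2 * L ^ 2 ≤ Real.exp (L / 16) ∧ (2 * Real.log L) ^ (B + 1) ≤ L / 2) ∧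
      (((2 * l + 1 : ℕ) : ℝ) * ((B + 1) * (1 + Real.log (Real.log L)) + 4 * M + 5) ≤
        Real.log (Real.log L) ^ 2 ∧ 3 ≤ Real.log (Real.log L)) ∧
      (1 ≤ Real.log (Real.log (Real.log L)) ∧ 5 * lr ≤ Real.log (Real.log (Real.log L)) ∧
        2 / (C2 * D) ≤ Real.log (Real.log (Real.log L))) ∧ (y0 : ℝ) + 2 ≤ L ∧
      (4 * Real.exp 16 + 4 * W + 8 ≤ Real.log L ∧ M1 * M ≤ L ∧ (M : ℝ) ≤ Real.log L) := by
    filter_upwards [ev_exp.and ev1, (hloglog.eventually evq).and (hloglog.eventually_ge_atTop 3),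
      (hlogloglog.eventually_ge_atTop 1).and ((hlogloglog.eventually_ge_atTop (5 * lr)).and
        (hlogloglog.eventually_ge_atTop (2 / (C2 * D)))), eventually_ge_atTop ((y0 : ℝ) + 2),
      (Real.tendsto_log_atTop.eventually_ge_atTop (4 * Real.exp 16 + 4 * W + 8)).and
        ((eventually_ge_atTop (M1 * M)).and (Real.tendsto_log_atTop.eventually_ge_atTop (M : ℝ)))]
      with L h1 h2 h3 h4 h5
    exact ⟨h1, h2, h3, h4, h5⟩
  have ev2 := hlogt.eventually ev
  obtain ⟨x0, hx0⟩ := eventually_atTop.mp (ev2.and (QQ_card.and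
    ((eventually_ge_atTop u0).and (eventually_ge_atTop 10))))
  refine ⟨x0, fun x hx => ?_⟩
  obtain ⟨⟨⟨f1, f2⟩, ⟨f3, f4⟩, ⟨f5, f6, f7⟩, f8, f9, f10, f11⟩, hQ, hxu, hx10⟩ := hx0 x hx
  set L := Real.log (x : ℝ) with hL
  have hL2 : (2 : ℝ) ≤ L := by
    have : (0 : ℝ) ≤ y0 := Nat.cast_nonneg _
    linarith
  have hL0 : 0 < L := by linarith
  have hxpos : (0 : ℝ) < x := by exact_mod_cast (by omega : 0 < x)
  set Y : ℕ := ⌊L ^ 2⌋₊ with hY
  have hYle : (Y : ℝ) ≤ L ^ 2 := Nat.floor_le (by positivity)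
  have hYge : L ^ 2 / 2 ≤ Y := by
    have := Nat.lt_floor_add_one (L ^ 2)
    rw [← hY] at this
    nlinarith
  have hYL : L ≤ Y := by nlinarith
  have hYy0 : y0 ≤ Y := by
    have : (y0 : ℝ) ≤ Y := by linarith
    exact_mod_cast this
  have hY0 : (0 : ℝ) < Y := by linarith
  have hY0' : 0 < Y := by exact_mod_cast hY0
  obtain ⟨S0, hS0Y, hS0G, hS0K⟩ := hd Y hYy0
  obtain ⟨r, hr⟩ := pigeon S0 M (by omega)
  set S := S0.filter (fun a => a % M = r) with hS
  have hSY : ∀ a ∈ S, a + l * u ≤ Y := fun a ha => (hS0G a (mem_filter.mp ha).1).2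
  have hS1 : S ⊆ Icc 1 Y := (filter_subset _ _).trans hS0Y
  have hsep : ∀ a ∈ S, ∀ b ∈ S, a ≠ b → l * u < Nat.dist a b := by
    have key : ∀ a ∈ S, ∀ b ∈ S, a < b → l * u < b - a := by
      intro a ha b hb hab
      have h1 : a ≡ b [MOD M] := by
        unfold Nat.ModEq
        rw [(mem_filter.mp ha).2, (mem_filter.mp hb).2]
      have h2 : M ∣ b - a := (Nat.modEq_iff_dvd' hab.le).1 h1
      have h3 := Nat.le_of_dvd (by omega) h2
      omega
    intro a ha b hb hab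
    rcases lt_or_gt_of_ne hab with h | h
    · have := key a ha b hb h
      unfold Nat.dist
      omega
    · have := key b hb a ha h
      unfold Nat.dist
      omega
  have hSK : (Y : ℝ) ≤ M * #S * Real.log Y ^ B := by
    refine hS0K.trans ?_
    have h1 : (#S0 : ℝ) ≤ M * #S := by exact_mod_cast hr
    exact mul_le_mul_of_nonneg_right h1 (pow_nonneg (Real.log_natCast_nonneg Y) _)
  have hY116 : 2 * (Y : ℝ) ≤ (x : ℝ) ^ (1 / 16 : ℝ) := by
    have e1 : (x : ℝ) ^ (1 / 16 : ℝ) = Real.exp (L / 16) := by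
      rw [Real.rpow_def_of_pos hxpos, ← hL]
      congr 1
      ring
    rw [e1]
    linarith
  -- the strings
  set T := Str S u l with hT
  have hTY : T ⊆ Icc 1 Y := by
    intro t ht
    obtain ⟨⟨a, i⟩, hai, rfl⟩ := mem_image.mp ht
    rw [mem_product, mem_range] at hai
    have h1 := (mem_Icc.mp (hS1 hai.1)).1
    have h2 := hSY _ hai.1
    have h3 : i * u ≤ l * u := Nat.mul_le_mul_right u (by omega)
    rw [mem_Icc]
    simp only at h1 h2 h3 ⊢
    omega
  have hTG : ∀ t ∈ T, ∃ a ∈ G, ∃ i ≤ l, t = a + i * u := by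
    intro t ht
    obtain ⟨⟨a, i⟩, hai, rfl⟩ := mem_image.mp ht
    rw [mem_product, mem_range] at hai
    exact ⟨a, (hS0G a (mem_filter.mp hai.1).1).1, i, by omega, rfl⟩
  have hTodd : ∀ t ∈ T, 3 ≤ t ∧ t % 2 = 1 := by
    intro t ht
    obtain ⟨a, ha, i, hi, rfl⟩ := hTG t ht
    exact hG a ha i hi
  have hmain := hsm x Y T hxu hY116 hTY hTodd
  have hTcard : (#T : ℝ) = #S * lr := by
    rw [hT, str_card S u l hu hsep, hlr]
    push_cast
    ring
  -- logarithms of `Y`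
  have hlogY : Real.log Y ≤ 2 * Real.log L := by
    have : Real.log Y ≤ Real.log (L ^ 2) := Real.log_le_log hY0 hYle
    rw [Real.log_pow] at this
    exact_mod_cast this
  have hlogYL : Real.log L ≤ Real.log Y := Real.log_le_log hL0 hYL
  have hWr : (0 : ℝ) ≤ W := Nat.cast_nonneg W
  have hexp16 : 0 < Real.exp 16 := Real.exp_pos _
  have hlogL8 : 8 ≤ Real.log L := by linarith
  have hlogY8 : 8 ≤ Real.log Y := by linarith
  -- `S` is large
  have hKL : L ≤ M * #S := by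
    have h1 : Real.log Y ^ B ≤ L / 2 := by
      refine le_trans ?_ f2
      calc Real.log Y ^ B ≤ Real.log Y ^ (B + 1) := pow_le_pow_right₀ (by linarith) (by omega)
        _ ≤ (2 * Real.log L) ^ (B + 1) := pow_le_pow_left₀ (by linarith) hlogY _
    have h2 : (Y : ℝ) ≤ M * #S * (L / 2) := hSK.trans (by gcongr)
    have h3 : L ^ 2 / 2 ≤ M * #S * (L / 2) := hYge.trans h2
    have h4 : L * (L / 2) ≤ M * #S * (L / 2) := by
      calc L * (L / 2) = L ^ 2 / 2 := by ring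
        _ ≤ _ := h3
    exact le_of_mul_le_mul_right h4 (by linarith)
  have hMpos : (0 : ℝ) < M := by exact_mod_cast (by omega : 0 < M)
  have hM1S : M1 ≤ #S := by
    have h1 : M1 * M ≤ #S * M := by linarith
    exact le_of_mul_le_mul_right h1 hMpos
  -- second version: `L ≤ #S`
  have hSL : L ≤ #S := by
    have h1 : Real.log Y ^ B * M ≤ L / 2 := by
      refine le_trans ?_ f2
      calc Real.log Y ^ B * M ≤ Real.log Y ^ B * Real.log Y := by
            apply mul_le_mul_of_nonneg_left (by linarith) (by positivity)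
        _ = Real.log Y ^ (B + 1) := by ring
        _ ≤ (2 * Real.log L) ^ (B + 1) := pow_le_pow_left₀ (by linarith) hlogY _
    have h2 : (Y : ℝ) ≤ #S * (L / 2) := by
      calc (Y : ℝ) ≤ M * #S * Real.log Y ^ B := hSK
        _ = #S * (Real.log Y ^ B * M) := by ring
        _ ≤ #S * (L / 2) := by gcongr
    have h3 : L * (L / 2) ≤ #S * (L / 2) := by
      calc L * (L / 2) = L ^ 2 / 2 := by ring
        _ ≤ _ := hYge.trans h2
    exact le_of_mul_le_mul_right h3 (by linarith)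
  have hS0pos : (0 : ℝ) < #S := by linarith
  -- the exponent
  have hlogYpos : 0 < Real.log Y := by linarith
  have hllY : Real.log (Real.log Y) ≤ 1 + Real.log (Real.log L) := by
    have h1 : Real.log (Real.log Y) ≤ Real.log (2 * Real.log L) := Real.log_le_log hlogYpos hlogY
    rw [Real.log_mul (by norm_num) (by linarith)] at h1
    have h2 := Real.log_two_lt_d9
    linarith
  have hllY0 : 0 ≤ Real.log (Real.log Y) := Real.log_nonneg (by linarith)
  set k : ℕ := ⌈((B : ℝ) + 1) * Real.log (Real.log Y)⌉₊ + (4 * M + 4) with hk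
  have hk3 : 3 ≤ k := by omega
  have hkge : ((B : ℝ) + 1) * Real.log (Real.log Y) + (4 * M + 4) ≤ k := by
    have := Nat.le_ceil (((B : ℝ) + 1) * Real.log (Real.log Y))
    rw [hk]
    push_cast
    linarith
  have hkle : (k : ℝ) ≤ (B + 1) * (1 + Real.log (Real.log L)) + 4 * M + 5 := by
    have h1 := Nat.ceil_lt_add_one (mul_nonneg (by positivity : (0 : ℝ) ≤ (B : ℝ) + 1) hllY0)
    have h2 : ((B : ℝ) + 1) * Real.log (Real.log Y) ≤ (B + 1) * (1 + Real.log (Real.log L)) :=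
      mul_le_mul_of_nonneg_left hllY (by positivity)
    rw [hk]
    push_cast
    linarith
  have hlogNk : Real.log (((2 * l + 1) * k : ℕ) : ℝ) ≤ 2 * Real.log (Real.log (Real.log L)) := by
    have h1 : (((2 * l + 1) * k : ℕ) : ℝ) ≤ Real.log (Real.log L) ^ 2 := by
      refine le_trans ?_ f3
      rw [Nat.cast_mul]
      exact mul_le_mul_of_nonneg_left hkle (Nat.cast_nonneg _)
    have h0 : (0 : ℝ) < (((2 * l + 1) * k : ℕ) : ℝ) := by
      exact_mod_cast Nat.mul_pos (by omega) (by omega)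
    have h2 := Real.log_le_log h0 h1
    rw [Real.log_pow] at h2
    exact_mod_cast h2
  have hEk : 4 * (Y : ℝ) ≤ e ^ k * #S := by
    have h1 : Real.log Y ^ B * (4 * M) ≤ e ^ k := by
      have h2 : e ^ k = Real.exp k := by
        rw [he, ← Real.exp_nat_mul, mul_one]
      rw [h2]
      have h3 : Real.log Y ^ B ≤ Real.exp (((B : ℝ) + 1) * Real.log (Real.log Y)) := by
        calc Real.log Y ^ B = Real.exp (B * Real.log (Real.log Y)) := by
              rw [Real.exp_nat_mul, Real.exp_log hlogYpos]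
          _ ≤ _ := by
              apply Real.exp_le_exp.mpr
              nlinarith
      have h4 : (4 * (M : ℝ)) ≤ Real.exp (4 * M + 4) := by
        have := Real.add_one_le_exp (4 * (M : ℝ) + 4)
        linarith
      calc Real.log Y ^ B * (4 * M) ≤
            Real.exp (((B : ℝ) + 1) * Real.log (Real.log Y)) * Real.exp (4 * M + 4) := by
              apply mul_le_mul h3 h4 (by positivity) (Real.exp_pos _).le
        _ = Real.exp (((B : ℝ) + 1) * Real.log (Real.log Y) + (4 * M + 4)) := (Real.exp_add _ _).symm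
        _ ≤ Real.exp k := Real.exp_le_exp.mpr hkge
    calc 4 * (Y : ℝ) ≤ 4 * (M * #S * Real.log Y ^ B) := by linarith
      _ = (Real.log Y ^ B * (4 * M)) * #S := by ring
      _ ≤ e ^ k * #S := by gcongr
  -- the parameter `z`
  set z : ℕ := ⌊Real.log Y / 2⌋₊ with hz
  have hzle : (z : ℝ) ≤ Real.log Y / 2 := Nat.floor_le (by linarith)
  have hzge : Real.log Y / 4 ≤ z := by
    have := Nat.lt_floor_add_one (Real.log Y / 2)
    rw [← hz] at this
    linarith
  have hzW : W ≤ z := by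
    have : (W : ℝ) ≤ z := by linarith
    exact_mod_cast this
  have hz16 : Real.exp 16 ≤ z := by linarith
  have hlogz : 16 ≤ Real.log z := by
    rw [Real.le_log_iff_exp_le (by linarith)]
    exact hz16
  have hzlog : 2 * Real.log Y ≤ z * Real.log z := by
    have h1 : Real.log Y / 4 * 16 ≤ z * Real.log z :=
      mul_le_mul hzge hlogz (by norm_num) (Nat.cast_nonneg _)
    linarith
  have hPWY : (∏ p ∈ PW W z, p) ≤ Y := PW_prod_le W z Y hY0' (by linarith)
  have h1 := havg W z u (2 * l + 1) k Y (l * u) S e hk3 (by omega) hNW hPWY hS1 (by linarith) hEk hsep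
  have h2 := str_sum W z u l hu (by omega) huW hNW hzW (by omega) Y S hSY hzlog hsep
  rw [← hP, ← hM1, ← hT] at h2
  set X1 : ℝ := ∑ z ∈ T.offDiag, gg (2 * Nat.dist z.1 z.2) with hX1
  set l4 : ℝ := Real.log (Real.log (Real.log L)) with hl4
  have hl40 : 0 < l4 := by linarith
  have h3 : ∑ x ∈ S.offDiag, GG W z u (2 * l + 1) (Nat.dist x.1 x.2 - l * u) ≤
      C1 * e * (2 * l4) * (#S : ℝ) ^ 2 := by
    refine h1.trans ?_
    gcongr
  have h4 : ((2 * l + 1 : ℕ) : ℝ) ≤ 2 * lr := by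
    rw [hlr]
    push_cast
    linarith
  have hX := finish2 hS0pos.le hlr1 hP1 hC1 he1 hl40 f6 hM1S h4 h3 h2
  rw [← hD, ← hTcard] at hX
  have hKS : (#S : ℝ) ≤ #T := by
    rw [hTcard]
    exact le_mul_of_one_le_right hS0pos.le hlr1
  have hfin : (x : ℝ) ≤ #(RR T x) * (5 * (C2 * D * l4)) :=
    finish hxpos hL0 (hSL.trans hKS) hC2 hD0 hl40 f7 hQ (Nat.cast_nonneg _) hmain hX
  refine ⟨RR T x, ?_, ?_, ?_⟩
  · unfold RR
    exact Finset.filter_subset _ _
  · intro n hn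
    unfold RR at hn
    obtain ⟨a, ha, q, hq, hqa⟩ := (mem_filter.mp hn).2
    obtain ⟨b, hb, i, hi, rfl⟩ := hTG a ha
    refine ⟨b, hb, i, hi, ?_, q, hq, hqa⟩
    have g1 := (mem_Icc.mp (hTY ha)).2
    calc ((b + i * u : ℕ) : ℝ) ≤ Y := by exact_mod_cast g1
      _ ≤ L ^ 2 := hYle
  · have g4 : D ≤ 5 * (C3 * Real.log W) * C1 * e / lr := by
      rw [hD]
      gcongr
    have g5 : (x : ℝ) ≤ #(RR T x) * ((25 * C2 * C1 * e * C3) * Real.log W / lr * l4) := by
      refine hfin.trans ?_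
      apply mul_le_mul_of_nonneg_left _ (Nat.cast_nonneg _)
      calc 5 * (C2 * D * l4) ≤ 5 * (C2 * (5 * (C3 * Real.log W) * C1 * e / lr) * l4) := by gcongr
        _ = _ := by ring
    have g6 : 0 < (25 * C2 * C1 * e * C3) * Real.log W := by positivity
    rw [div_mul_div_comm, div_le_iff₀ (by positivity)]
    calc lr * x ≤ lr * (#(RR T x) * ((25 * C2 * C1 * e * C3) * Real.log W / lr * l4)) :=
          mul_le_mul_of_nonneg_left g5 (by linarith)
      _ = #(RR T x) * ((25 * C2 * C1 * e * C3) * Real.log W * l4) := by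
          field_simp

end Pool.Agent.V8H35.RO
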