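import Pool.Agent.H197R2.PG6

set_option autoImplicit false

open Finset

namespace Pool.Agent.V8H35.RO

open Pool.Agent.H197R2.PG

/-- the primes `p` with `W < p ≤ z` -/
noncomputable def PW (W z : ℕ) : Finset ℕ := (Icc 1 z).filter (fun p => p.Prime ∧ W < p)

lemma PW_prime {W z p : ℕ} (h : p ∈ PW W z) : p.Prime := (mem_filter.mp h).2.1

lemma PW_gt {W z p : ℕ} (h : p ∈ PW W z) : W < p := (mem_filter.mp h).2.2

/-- the primes of `PW W z` which divide one of the numbers `m + s u`, `s < N` -/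
noncomputable def Hits (W z u N m : ℕ) : Finset ℕ :=
  (PW W z).filter (fun p => ∃ s ∈ range N, p ∣ m + s * u)

/-- the product of `1 + 1/p` over `Hits` -/
noncomputable def GG (W z u N m : ℕ) : ℝ := ∏ p ∈ Hits W z u N m, (1 + 1 / (p : ℝ))

/-- the product of `1 + 1/p` over the `p` in `PW W z` which divide `h` -/
noncomputable def gz (W z h : ℕ) : ℝ := ∏ p ∈ (PW W z).filter (fun p => p ∣ h), (1 + 1 / (p : ℝ))

lemma one_le_prod_one_add (s : Finset ℕ) : (1 : ℝ) ≤ ∏ p ∈ s, (1 + 1 / (p : ℝ)) := by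
  apply Finset.prod_induction (fun p : ℕ => (1 + 1 / (p : ℝ))) (fun r => (1 : ℝ) ≤ r)
  · intro a b ha hb
    nlinarith
  · exact le_refl _
  · intro x _
    have : (0 : ℝ) ≤ 1 / (x : ℝ) := by positivity
    linarith

lemma one_le_GG (W z u N m : ℕ) : 1 ≤ GG W z u N m := one_le_prod_one_add _

lemma one_le_gz (W z h : ℕ) : 1 ≤ gz W z h := one_le_prod_one_add _

lemma card_cong {Y D : ℕ} (M : Finset ℕ) (hM : M ⊆ Icc 1 Y)
    (h : ∀ a ∈ M, ∀ b ∈ M, a ≡ b [MOD D]) : M.card ≤ Y / D + 1 := by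
  have h1 : M.card = (M.image (fun a => a / D)).card := by
    rw [card_image_of_injOn]
    intro a ha b hb hab
    have h2 : a % D = b % D := h a ha b hb
    have h3 : a / D = b / D := hab
    rw [← Nat.div_add_mod a D, ← Nat.div_add_mod b D, h2, h3]
  rw [h1]
  calc (M.image (fun a => a / D)).card ≤ (range (Y / D + 1)).card := by
        apply card_le_card
        intro b hb
        obtain ⟨a, ha, rfl⟩ := mem_image.mp hb
        rw [mem_range]
        have h4 := (mem_Icc.mp (hM ha)).2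
        have h5 : a / D ≤ Y / D := Nat.div_le_div_right h4
        exact Nat.lt_succ_of_le h5
    _ = _ := card_range _

lemma prod_dvd_sub (T : Finset ℕ) (hT : ∀ p ∈ T, p.Prime) {a b : ℕ} (h : ∀ p ∈ T, a ≡ b [MOD p]) :
    a ≡ b [MOD (∏ p ∈ T, p)] := by
  wlog hab : a ≤ b generalizing a b with H
  · exact (H (fun p hp => (h p hp).symm) (by omega)).symm
  · rw [Nat.modEq_iff_dvd' hab]
    apply Finset.prod_primes_dvd
    · intro p hp
      exact (hT p hp).prime
    · intro p hp
      exact (Nat.modEq_iff_dvd' hab).1 (h p hp)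

lemma card_hits (T : Finset ℕ) (hT : ∀ p ∈ T, p.Prime) (u N Y : ℕ) :
    ((Icc 1 Y).filter (fun m => ∀ p ∈ T, ∃ s ∈ range N, p ∣ m + s * u)).card ≤
      N ^ T.card * (Y / (∏ p ∈ T, p) + 1) := by
  classical
  have h1 : (Icc 1 Y).filter (fun m => ∀ p ∈ T, ∃ s ∈ range N, p ∣ m + s * u) ⊆
      (T.pi (fun _ => range N)).biUnion (fun f => (Icc 1 Y).filter
        (fun m => ∀ (p : ℕ) (hp : p ∈ T), p ∣ m + f p hp * u)) := by
    intro m hm
    rw [mem_filter] at hm
    choose! f hf using hm.2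
    rw [mem_biUnion]
    refine ⟨fun p _ => f p, ?_, ?_⟩
    · rw [mem_pi]
      intro p hp
      exact (hf p hp).1
    · rw [mem_filter]
      exact ⟨hm.1, fun p hp => (hf p hp).2⟩
  refine (card_le_card h1).trans ?_
  refine (card_biUnion_le_card_mul _ _ (Y / (∏ p ∈ T, p) + 1) ?_).trans ?_
  · intro f hf
    apply card_cong _ (filter_subset _ _)
    intro a ha b hb
    rw [mem_filter] at ha hb
    apply prod_dvd_sub T hT
    intro p hp
    have e1 := ha.2 p hp
    have e2 := hb.2 p hp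
    apply Nat.ModEq.add_right_cancel' (f p hp * u)
    exact ((Nat.modEq_zero_iff_dvd).2 e1).trans ((Nat.modEq_zero_iff_dvd).2 e2).symm
  · rw [Finset.card_pi]
    simp only [card_range, prod_const]
    exact le_refl _

lemma moment (W z u N k Y : ℕ) (hz : (∏ p ∈ PW W z, p) ≤ Y) :
    ∑ m ∈ Icc 1 Y, GG W z u N m ^ k ≤ 2 * Y * ∏ p ∈ PW W z, (1 + N * (wt k p / p)) := by
  classical
  have h1 : ∀ m ∈ Icc 1 Y, GG W z u N m ^ k = ∑ T ∈ (PW W z).powerset,
      if T ⊆ Hits W z u N m then ∏ p ∈ T, wt k p else 0 := by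
    intro m hm
    have e1 : GG W z u N m ^ k = ∏ p ∈ Hits W z u N m, (1 + wt k p) := by
      unfold GG
      rw [← Finset.prod_pow]
      apply Finset.prod_congr rfl
      intro p _
      unfold wt
      ring
    rw [e1, Finset.prod_one_add, ← Finset.sum_filter]
    apply Finset.sum_congr _ (fun _ _ => rfl)
    ext T
    rw [mem_filter, mem_powerset, mem_powerset]
    constructor
    · intro hT
      exact ⟨hT.trans (filter_subset _ _), hT⟩
    · exact fun hT => hT.2
  rw [Finset.sum_congr rfl h1, Finset.sum_comm, Finset.prod_one_add, Finset.mul_sum]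
  apply Finset.sum_le_sum
  intro T hT
  rw [mem_powerset] at hT
  rw [← Finset.sum_filter, Finset.sum_const, nsmul_eq_mul]
  have hTp : ∀ p ∈ T, p.Prime := fun p hp => PW_prime (hT hp)
  have hPpos : 0 < ∏ p ∈ T, p := Finset.prod_pos (fun p hp => (hTp p hp).pos)
  have hle : ∏ p ∈ T, p ≤ Y := by
    refine le_trans ?_ hz
    apply Finset.prod_le_prod_of_subset_of_one_le' hT
    intro p hp _
    exact (PW_prime hp).one_lt.le
  have hcard : (((Icc 1 Y).filter (fun m => T ⊆ Hits W z u N m)).card : ℝ) ≤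
      (N : ℝ) ^ T.card * (2 * Y / ∏ p ∈ T, (p : ℝ)) := by
    have e1 : (Icc 1 Y).filter (fun m => T ⊆ Hits W z u N m) ⊆
        (Icc 1 Y).filter (fun m => ∀ p ∈ T, ∃ s ∈ range N, p ∣ m + s * u) := by
      intro m hm
      rw [mem_filter] at hm ⊢
      exact ⟨hm.1, fun p hp => (mem_filter.mp (hm.2 hp)).2⟩
    have e2 := (card_le_card e1).trans (card_hits T hTp u N Y)
    have e3 : (((Icc 1 Y).filter (fun m => T ⊆ Hits W z u N m)).card : ℝ) ≤
        (N : ℝ) ^ T.card * (((Y / ∏ p ∈ T, p : ℕ) : ℝ) + 1) := by exact_mod_cast e2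
    refine e3.trans ?_
    apply mul_le_mul_of_nonneg_left _ (by positivity)
    have e4 : ((Y / ∏ p ∈ T, p : ℕ) : ℝ) ≤ (Y : ℝ) / ((∏ p ∈ T, p : ℕ) : ℝ) := Nat.cast_div_le
    have e5 : (1 : ℝ) ≤ (Y : ℝ) / ((∏ p ∈ T, p : ℕ) : ℝ) := by
      rw [one_le_div (by exact_mod_cast hPpos)]
      exact_mod_cast hle
    push_cast at e4 e5
    calc ((Y / ∏ p ∈ T, p : ℕ) : ℝ) + 1 ≤ (Y : ℝ) / (∏ p ∈ T, (p : ℝ)) + (Y : ℝ) / (∏ p ∈ T, (p : ℝ)) :=
          add_le_add e4 e5
      _ = _ := by ring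
  calc (((Icc 1 Y).filter (fun m => T ⊆ Hits W z u N m)).card : ℝ) * ∏ p ∈ T, wt k p
      ≤ ((N : ℝ) ^ T.card * (2 * Y / ∏ p ∈ T, (p : ℝ))) * ∏ p ∈ T, wt k p := by
        apply mul_le_mul_of_nonneg_right hcard
        exact Finset.prod_nonneg (fun p _ => wt_nonneg k p)
    _ = 2 * Y * ∏ p ∈ T, (N * (wt k p / p)) := by
        rw [Finset.prod_mul_distrib, Finset.prod_const, Finset.prod_div_distrib]
        ring

lemma euler : ∃ C : ℝ, 1 ≤ C ∧ ∀ W z N k : ℕ, 3 ≤ k → 1 ≤ N → N ≤ W →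
    ∏ p ∈ PW W z, (1 + N * (wt k p / p)) ≤ (C * Real.log (N * k : ℕ)) ^ k := by
  classical
  obtain ⟨C0, hC0⟩ := Pool.Agent.Helper601.Mertens.mertens_inv
  refine ⟨Real.exp (|C0| + 2), Real.one_le_exp (by positivity), ?_⟩
  intro W z N k hk hN hNW
  have hk0 : (0 : ℝ) < k := by exact_mod_cast (by omega : 0 < k)
  have hk3 : (3 : ℝ) ≤ k := by exact_mod_cast hk
  have hN1 : (1 : ℝ) ≤ N := by exact_mod_cast hN
  have hM3 : 3 ≤ N * k := by nlinarith
  have hM3' : (3 : ℝ) ≤ (N * k : ℕ) := by exact_mod_cast hM3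
  have hlogk : 0 < Real.log (N * k : ℕ) := Real.log_pos (by linarith)
  have hfac1 : ∀ p : ℕ, 1 ≤ 1 + N * (wt k p / p) := by
    intro p
    have : 0 ≤ N * (wt k p / p) := mul_nonneg (by linarith) (div_nonneg (wt_nonneg k p) (Nat.cast_nonneg p))
    linarith
  have hsplit : ∏ p ∈ PW W z, (1 + N * (wt k p / p)) =
      (∏ p ∈ (PW W z).filter (fun p => p ≤ N * k), (1 + N * (wt k p / p))) *
        ∏ p ∈ (PW W z).filter (fun p => ¬ p ≤ N * k), (1 + N * (wt k p / p)) :=
    (Finset.prod_filter_mul_prod_filter_not _ _ _).symm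
  rw [hsplit]
  have hexp : ∀ p : ℕ, (1 + 1 / (p : ℝ)) ^ k ≤ Real.exp (k * (1 / (p : ℝ))) := by
    intro p
    rw [Real.exp_nat_mul]
    have : (0 : ℝ) ≤ 1 / (p : ℝ) := by positivity
    apply pow_le_pow_left₀ (by linarith)
    have := Real.add_one_le_exp (1 / (p : ℝ))
    linarith
  -- small primes
  have hsmall : ∏ p ∈ (PW W z).filter (fun p => p ≤ N * k), (1 + N * (wt k p / p)) ≤
      Real.exp (k * (Real.log (Real.log (N * k : ℕ)) + |C0|)) := by
    have h1 : ∏ p ∈ (PW W z).filter (fun p => p ≤ N * k), (1 + N * (wt k p / p)) ≤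
        ∏ p ∈ (PW W z).filter (fun p => p ≤ N * k), Real.exp (k * (1 / (p : ℝ))) := by
      apply Finset.prod_le_prod
      · intro p _
        linarith [hfac1 p]
      · intro p hp
        have hpW := PW_gt (mem_filter.mp hp).1
        have hpN : (N : ℝ) ≤ p := by exact_mod_cast hNW.trans hpW.le
        have hp0 : (0 : ℝ) < p := by linarith
        have h2 : N * (wt k p / p) ≤ wt k p := by
          rw [← mul_div_assoc, div_le_iff₀ hp0, mul_comm]
          exact mul_le_mul_of_nonneg_left hpN (wt_nonneg k p)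
        have h3 : 1 + wt k p = (1 + 1 / (p : ℝ)) ^ k := by unfold wt; ring
        have h4 := hexp p
        linarith
    refine h1.trans ?_
    rw [← Real.exp_sum, ← Finset.mul_sum]
    apply Real.exp_le_exp.mpr
    apply mul_le_mul_of_nonneg_left _ hk0.le
    have h5 : ∑ p ∈ (PW W z).filter (fun p => p ≤ N * k), 1 / (p : ℝ) ≤
        ∑ p ∈ (Finset.Icc 1 (N * k)).filter Nat.Prime, (1 : ℝ) / p := by
      apply Finset.sum_le_sum_of_subset_of_nonneg
      · intro p hp
        rw [mem_filter] at hp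
        have h6 := PW_prime hp.1
        rw [mem_filter, mem_Icc]
        exact ⟨⟨h6.one_lt.le, hp.2⟩, h6⟩
      · intro p _ _
        positivity
    have h6 := (abs_le.mp (hC0 (N * k) hM3)).2
    have h7 := le_abs_self C0
    linarith
  -- large primes
  have hlarge : ∏ p ∈ (PW W z).filter (fun p => ¬ p ≤ N * k), (1 + N * (wt k p / p)) ≤ Real.exp 2 := by
    have h1 : ∏ p ∈ (PW W z).filter (fun p => ¬ p ≤ N * k), (1 + N * (wt k p / p)) ≤
        ∏ p ∈ (PW W z).filter (fun p => ¬ p ≤ N * k), Real.exp (2 * (N * k : ℕ) * ((p : ℝ) ^ 2)⁻¹) := by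
      apply Finset.prod_le_prod
      · intro p _
        linarith [hfac1 p]
      · intro p hp
        have hpk : N * k < p := not_le.mp (mem_filter.mp hp).2
        have hpk1 : k < p := lt_of_le_of_lt (Nat.le_mul_of_pos_left k hN) hpk
        have hpk' : (k : ℝ) < p := by exact_mod_cast hpk1
        have hp0 : (0 : ℝ) < p := by linarith
        have h3 : wt k p ≤ 2 * (k / p) := by
          have h4 := hexp p
          have h5 : (k : ℝ) * (1 / p) = k / p := by ring
          rw [h5] at h4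
          have h6 : |(k : ℝ) / p| ≤ 1 := by
            rw [abs_of_nonneg (by positivity), div_le_one hp0]
            exact hpk'.le
          have h7 := Real.abs_exp_sub_one_le h6
          rw [abs_of_nonneg (by positivity : (0 : ℝ) ≤ (k : ℝ) / p)] at h7
          have h8 := le_abs_self (Real.exp ((k : ℝ) / p) - 1)
          unfold wt
          linarith
        have h9 : N * (wt k p / p) ≤ 2 * (N * k : ℕ) * ((p : ℝ) ^ 2)⁻¹ := by
          calc N * (wt k p / p) ≤ N * (2 * (k / p) / p) := by gcongr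
            _ = 2 * (N * k : ℕ) * ((p : ℝ) ^ 2)⁻¹ := by
                push_cast
                field_simp
        have h10 := Real.add_one_le_exp (2 * ((N * k : ℕ) : ℝ) * ((p : ℝ) ^ 2)⁻¹)
        linarith
    refine h1.trans ?_
    rw [← Real.exp_sum, ← Finset.mul_sum]
    apply Real.exp_le_exp.mpr
    have h11 : ∑ p ∈ (PW W z).filter (fun p => ¬ p ≤ N * k), ((p : ℝ) ^ 2)⁻¹ ≤ ((N * k : ℕ) : ℝ)⁻¹ := by
      rcases le_or_gt (N * k) z with hkY | hkY
      · have h12 := sum_Ioc_inv_sq_le_sub (α := ℝ) (k := N * k) (n := z) (by omega) hkY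
        have h13 : ∑ p ∈ (PW W z).filter (fun p => ¬ p ≤ N * k), ((p : ℝ) ^ 2)⁻¹ ≤
            ∑ p ∈ Ioc (N * k) z, ((p : ℝ) ^ 2)⁻¹ := by
          apply Finset.sum_le_sum_of_subset_of_nonneg
          · intro p hp
            rw [mem_filter] at hp
            unfold PW at hp
            rw [mem_filter, mem_Icc] at hp
            rw [mem_Ioc]
            exact ⟨not_le.mp hp.2, hp.1.1.2⟩
          · intro p _ _
            positivity
        have h14 : (0 : ℝ) ≤ (z : ℝ)⁻¹ := by positivity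
        linarith
      · have h15 : (PW W z).filter (fun p => ¬ p ≤ N * k) = ∅ := by
          rw [Finset.filter_eq_empty_iff]
          intro p hp
          unfold PW at hp
          rw [mem_filter, mem_Icc] at hp
          omega
        rw [h15, Finset.sum_empty]
        positivity
    calc 2 * ((N * k : ℕ) : ℝ) * ∑ p ∈ (PW W z).filter (fun p => ¬ p ≤ N * k), ((p : ℝ) ^ 2)⁻¹
        ≤ 2 * ((N * k : ℕ) : ℝ) * ((N * k : ℕ) : ℝ)⁻¹ := by gcongr
      _ = 2 := by
          rw [mul_assoc, mul_inv_cancel₀ (by linarith), mul_one]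
  calc (∏ p ∈ (PW W z).filter (fun p => p ≤ N * k), (1 + N * (wt k p / p))) *
        ∏ p ∈ (PW W z).filter (fun p => ¬ p ≤ N * k), (1 + N * (wt k p / p))
      ≤ Real.exp (k * (Real.log (Real.log (N * k : ℕ)) + |C0|)) * Real.exp 2 := by
        apply mul_le_mul hsmall hlarge
        · apply Finset.prod_nonneg
          intro p _
          linarith [hfac1 p]
        · positivity
    _ = Real.exp (k * (Real.log (Real.log (N * k : ℕ)) + |C0|) + 2) := by rw [Real.exp_add]
    _ ≤ Real.exp (k * (Real.log (Real.log (N * k : ℕ)) + (|C0| + 2))) := by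
        apply Real.exp_le_exp.mpr
        nlinarith
    _ = (Real.exp (|C0| + 2) * Real.log (N * k : ℕ)) ^ k := by
        rw [Real.exp_nat_mul, Real.exp_add (Real.log (Real.log (N * k : ℕ))), Real.exp_log hlogk]
        ring

end Pool.Agent.V8H35.RO
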