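import Pool.Agent.V8H35.RO.R1

set_option autoImplicit false

open Finset

namespace Pool.Agent.V8H35.RO

open Pool.Agent.H197R2.PG

theorem GG_avg : ∃ C : ℝ, 1 ≤ C ∧ ∀ (W z u N k Y c : ℕ) (S : Finset ℕ) (E : ℝ), 3 ≤ k → 1 ≤ N →
    N ≤ W → (∏ p ∈ PW W z, p) ≤ Y → S ⊆ Icc 1 Y → 0 ≤ E → 4 * (Y : ℝ) ≤ E ^ k * #S →
    (∀ a ∈ S, ∀ b ∈ S, a ≠ b → c < Nat.dist a b) →
    ∑ x ∈ S.offDiag, GG W z u N (Nat.dist x.1 x.2 - c) ≤
      C * E * Real.log (N * k : ℕ) * (#S : ℝ) ^ 2 := by
  classical
  obtain ⟨C, hC, hEu⟩ := euler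
  refine ⟨C, hC, ?_⟩
  intro W z u N k Y c S E hk hN hNW hz hS hE0 hYE hsep
  have hNk3 : 3 ≤ N * k := by nlinarith
  have hlogk : 0 < Real.log (N * k : ℕ) := Real.log_pos (by exact_mod_cast (by omega : 1 < N * k))
  set X := ∑ x ∈ S.offDiag, GG W z u N (Nat.dist x.1 x.2 - c) with hX
  obtain ⟨m, rfl⟩ : ∃ m, k = m + 1 := ⟨k - 1, by omega⟩
  have h1 : X ^ (m + 1) ≤ (#S.offDiag : ℝ) ^ m *
      ∑ x ∈ S.offDiag, GG W z u N (Nat.dist x.1 x.2 - c) ^ (m + 1) :=
    pow_sum_le_card_mul_sum_pow (fun x _ => by linarith [one_le_GG W z u N (Nat.dist x.1 x.2 - c)]) m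
  have h2 : (#S.offDiag : ℝ) ≤ (#S : ℝ) ^ 2 := by
    have : #S.offDiag ≤ #S * #S := by
      rw [offDiag_card]
      exact Nat.sub_le _ _
    calc (#S.offDiag : ℝ) ≤ ((#S * #S : ℕ) : ℝ) := by exact_mod_cast this
      _ = (#S : ℝ) ^ 2 := by push_cast; ring
  set F : ℕ → ℝ := fun h => if c < h then GG W z u N (h - c) ^ (m + 1) else 0 with hF
  have hGG0 : ∀ j, 0 ≤ GG W z u N j ^ (m + 1) := fun j =>
    pow_nonneg (by linarith [one_le_GG W z u N j]) _
  have hF0 : ∀ h, 0 ≤ F h := by
    intro h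
    simp only [hF]
    split_ifs
    · exact hGG0 _
    · exact le_refl _
  have h3 : ∑ x ∈ S.offDiag, GG W z u N (Nat.dist x.1 x.2 - c) ^ (m + 1) =
      ∑ x ∈ S.offDiag, F (Nat.dist x.1 x.2) := by
    apply Finset.sum_congr rfl
    intro x hx
    rw [mem_offDiag] at hx
    simp only [hF]
    rw [if_pos (hsep _ hx.1 _ hx.2.1 hx.2.2)]
  have h5 := sum_dist_le S Y hS F hF0
  have h6 : ∑ h ∈ Icc 1 Y, F h ≤ ∑ h ∈ Icc 1 Y, GG W z u N h ^ (m + 1) := by
    simp only [hF]
    rw [← Finset.sum_filter]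
    have hinj : Set.InjOn (fun h => h - c) (((Icc 1 Y).filter (fun h => c < h) : Finset ℕ) : Set ℕ) := by
      intro a ha b hb hab
      have h7 := (mem_filter.mp (mem_coe.mp ha)).2
      have h8 := (mem_filter.mp (mem_coe.mp hb)).2
      simp only at hab
      omega
    rw [← Finset.sum_image (f := fun h => GG W z u N h ^ (m + 1)) hinj]
    apply Finset.sum_le_sum_of_subset_of_nonneg
    · intro d hd
      obtain ⟨b, hb, rfl⟩ := mem_image.mp hd
      rw [mem_filter, mem_Icc] at hb
      rw [mem_Icc]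
      omega
    · intro d _ _
      exact hGG0 d
  set V : ℝ := C * Real.log (N * (m + 1) : ℕ) with hV
  have hV0 : 0 ≤ V := by positivity
  have h7 : ∑ h ∈ Icc 1 Y, GG W z u N h ^ (m + 1) ≤ 2 * Y * V ^ (m + 1) :=
    (moment W z u N (m + 1) Y hz).trans
      (mul_le_mul_of_nonneg_left (hEu W z N (m + 1) hk hN hNW) (by positivity))
  have h8 : X ^ (m + 1) ≤ (C * E * Real.log (N * (m + 1) : ℕ) * (#S : ℝ) ^ 2) ^ (m + 1) := by
    calc X ^ (m + 1) ≤ (#S.offDiag : ℝ) ^ m *
          ∑ x ∈ S.offDiag, GG W z u N (Nat.dist x.1 x.2 - c) ^ (m + 1) := h1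
      _ ≤ ((#S : ℝ) ^ 2) ^ m * (2 * #S * (2 * Y * V ^ (m + 1))) := by
          apply mul_le_mul
          · gcongr
          · rw [h3]
            refine h5.trans ?_
            apply mul_le_mul_of_nonneg_left (h6.trans h7) (by positivity)
          · apply Finset.sum_nonneg
            intro x _
            exact hGG0 _
          · positivity
      _ = ((#S : ℝ) ^ 2) ^ m * (V ^ (m + 1) * #S * (4 * Y)) := by ring
      _ ≤ ((#S : ℝ) ^ 2) ^ m * (V ^ (m + 1) * #S * (E ^ (m + 1) * #S)) := by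
          gcongr
      _ = (C * E * Real.log (N * (m + 1) : ℕ) * (#S : ℝ) ^ 2) ^ (m + 1) := by
          rw [hV]
          simp only [mul_pow]
          ring
  exact le_of_pow_le_pow_left₀ (by omega) (by positivity) h8

/-- primes larger than `z` contribute little -/
lemma large_part (z h : ℕ) (hz : 3 ≤ z) (hh : 0 < h) (hzh : 2 * Real.log h ≤ z * Real.log z) :
    ∏ p ∈ h.primeFactors.filter (fun p => z < p), (1 + 1 / (p : ℝ)) ≤ 2 := by
  have hz3 : (3 : ℝ) ≤ z := by exact_mod_cast hz
  have hlz : 0 < Real.log z := Real.log_pos (by linarith)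
  have h1 : ∏ p ∈ h.primeFactors.filter (fun p => z < p), (1 + 1 / (p : ℝ)) ≤
      ∏ p ∈ h.primeFactors.filter (fun p => z < p), Real.exp (Real.log p / (z * Real.log z)) := by
    apply Finset.prod_le_prod
    · intro p _
      positivity
    · intro p hp
      have hpz : (z : ℝ) < p := by exact_mod_cast (mem_filter.mp hp).2
      have h2 : Real.log z ≤ Real.log p := Real.log_le_log (by linarith) hpz.le
      have h3 : 1 / (p : ℝ) ≤ Real.log p / (z * Real.log z) := by
        rw [div_le_div_iff₀ (by linarith) (by positivity)]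
        nlinarith
      have h4 := Real.add_one_le_exp (Real.log p / (z * Real.log z))
      linarith
  refine h1.trans ?_
  rw [← Real.exp_sum, ← Finset.sum_div]
  have h5 : ∑ p ∈ h.primeFactors.filter (fun p => z < p), Real.log p ≤ Real.log h := by
    have e1 : ∑ p ∈ h.primeFactors.filter (fun p => z < p), Real.log p ≤
        ∑ p ∈ h.primeFactors, Real.log p := by
      apply Finset.sum_le_sum_of_subset_of_nonneg (filter_subset _ _)
      intro p _ _
      exact Real.log_natCast_nonneg p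
    refine e1.trans ?_
    rw [← Real.log_prod (fun p hp => by
      have := (Nat.prime_of_mem_primeFactors hp).pos
      positivity)]
    apply Real.log_le_log
    · apply Finset.prod_pos
      intro p hp
      have := (Nat.prime_of_mem_primeFactors hp).pos
      positivity
    · have e2 := Nat.le_of_dvd hh (Nat.prod_primeFactors_dvd h)
      have e3 : ((∏ p ∈ h.primeFactors, p : ℕ) : ℝ) ≤ (h : ℝ) := by exact_mod_cast e2
      rw [Nat.cast_prod] at e3
      exact e3
  have h6 : (∑ p ∈ h.primeFactors.filter (fun p => z < p), Real.log p) / (z * Real.log z) ≤ 1 / 2 := by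
    rw [div_le_iff₀ (by positivity)]
    linarith
  calc Real.exp ((∑ p ∈ h.primeFactors.filter (fun p => z < p), Real.log p) / (z * Real.log z))
      ≤ Real.exp (1 / 2) := Real.exp_le_exp.mpr h6
    _ ≤ 2 := by
        have h7 := Real.exp_one_lt_d9
        have h8 : Real.exp (1 / 2) ^ 2 = Real.exp 1 := by
          rw [← Real.exp_nat_mul]
          norm_num
        have h9 : 0 < Real.exp (1 / 2 : ℝ) := Real.exp_pos _
        nlinarith

lemma gg_le_gz (W z h : ℕ) (hW : 2 ≤ W) (hWz : W ≤ z) (hz : 3 ≤ z) (hh : 0 < h)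
    (hzh : 2 * Real.log h ≤ z * Real.log z) :
    gg (2 * h) ≤ 2 * (∏ p ∈ (Icc 1 W).filter Nat.Prime, (1 + 1 / (p : ℝ))) * gz W z h := by
  classical
  have h1 : (2 * h).primeFactors ⊆ ((Icc 1 W).filter Nat.Prime ∪ (PW W z).filter (fun p => p ∣ h)) ∪
      h.primeFactors.filter (fun p => z < p) := by
    intro p hp
    have hpp := Nat.prime_of_mem_primeFactors hp
    have hpd := Nat.dvd_of_mem_primeFactors hp
    rw [mem_union, mem_union, mem_filter, mem_Icc, mem_filter, mem_filter]
    by_cases hpW : p ≤ W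
    · exact Or.inl (Or.inl ⟨⟨hpp.one_lt.le, hpW⟩, hpp⟩)
    · have h2 : p ∣ h := by
        rcases (Nat.Prime.dvd_mul hpp).1 hpd with h3 | h3
        · exact absurd (Nat.le_of_dvd (by norm_num) h3) (by omega)
        · exact h3
      by_cases hpz : p ≤ z
      · left; right
        refine ⟨?_, h2⟩
        unfold PW
        rw [mem_filter, mem_Icc]
        exact ⟨⟨hpp.one_lt.le, hpz⟩, hpp, by omega⟩
      · right
        exact ⟨Nat.mem_primeFactors.2 ⟨hpp, h2, hh.ne'⟩, by omega⟩
  have hge : ∀ p : ℕ, (1 : ℝ) ≤ 1 + 1 / (p : ℝ) := by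
    intro p
    have : (0 : ℝ) ≤ 1 / (p : ℝ) := by positivity
    linarith
  have h2 : gg (2 * h) ≤ ∏ p ∈ ((Icc 1 W).filter Nat.Prime ∪ (PW W z).filter (fun p => p ∣ h)) ∪
      h.primeFactors.filter (fun p => z < p), (1 + 1 / (p : ℝ)) := by
    unfold gg
    apply Finset.prod_le_prod_of_subset_of_one_le h1
    · intro p _
      linarith [hge p]
    · intro p _ _
      exact hge p
  have hd1 : Disjoint ((Icc 1 W).filter Nat.Prime) ((PW W z).filter (fun p => p ∣ h)) := by
    rw [Finset.disjoint_left]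
    intro p hp hp'
    have h3 := (mem_Icc.mp (mem_filter.mp hp).1).2
    have h4 := PW_gt (mem_filter.mp hp').1
    omega
  have hd2 : Disjoint ((Icc 1 W).filter Nat.Prime ∪ (PW W z).filter (fun p => p ∣ h))
      (h.primeFactors.filter (fun p => z < p)) := by
    rw [Finset.disjoint_left]
    intro p hp hp'
    have h5 := (mem_filter.mp hp').2
    rw [mem_union] at hp
    rcases hp with hp | hp
    · have h3 := (mem_Icc.mp (mem_filter.mp hp).1).2
      omega
    · have h4 := (mem_filter.mp hp).1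
      unfold PW at h4
      rw [mem_filter, mem_Icc] at h4
      omega
  rw [Finset.prod_union hd2, Finset.prod_union hd1] at h2
  have h3 := large_part z h hz hh hzh
  have h4 := one_le_prod_one_add ((Icc 1 W).filter Nat.Prime)
  have h5 := one_le_gz W z h
  unfold gz at h5 ⊢
  refine h2.trans ?_
  calc _ ≤ (∏ p ∈ (Icc 1 W).filter Nat.Prime, (1 + 1 / (p : ℝ))) *
        (∏ p ∈ (PW W z).filter (fun p => p ∣ h), (1 + 1 / (p : ℝ))) * 2 := by
        apply mul_le_mul_of_nonneg_left h3
        apply mul_nonneg <;> linarith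
    _ = _ := by ring

lemma sum_le_prod {ι : Type*} (s : Finset ι) (g : ι → ℝ) (hg : ∀ i ∈ s, 1 ≤ g i) :
    ∑ i ∈ s, g i + 1 ≤ #s + ∏ i ∈ s, g i ∧ 1 ≤ ∏ i ∈ s, g i := by
  classical
  induction s using Finset.induction_on with
  | empty => simp
  | insert a s ha ih =>
    rw [Finset.sum_insert ha, Finset.prod_insert ha, Finset.card_insert_of_notMem ha]
    obtain ⟨h1, h2⟩ := ih (fun i hi => hg i (mem_insert_of_mem hi))
    have h3 := hg a (mem_insert_self _ _)
    push_cast
    constructor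
    · nlinarith
    · nlinarith

lemma sum_gz (W z u N m : ℕ) (hu : 1 ≤ u) (huW : u ≤ W) (hNW : N ≤ W) :
    ∑ s ∈ range N, gz W z (m + s * u) ≤ N + GG W z u N m := by
  classical
  have h1 : GG W z u N m = ∏ s ∈ range N, gz W z (m + s * u) := by
    unfold GG gz
    rw [← Finset.prod_biUnion]
    · apply Finset.prod_congr _ (fun _ _ => rfl)
      ext p
      unfold Hits
      rw [mem_filter, mem_biUnion]
      constructor
      · rintro ⟨h2, s, h3, h4⟩
        exact ⟨s, h3, mem_filter.mpr ⟨h2, h4⟩⟩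
      · rintro ⟨s, h3, h4⟩
        rw [mem_filter] at h4
        exact ⟨h4.1, s, h3, h4.2⟩
    · have key : ∀ s t : ℕ, s < t → t < N → ∀ p ∈ PW W z, p ∣ m + s * u → p ∣ m + t * u → False := by
        intro s t hst ht p hp h2 h3
        have hpp := PW_prime hp
        have hpW := PW_gt hp
        have h4 : p ∣ (t - s) * u := by
          have h5 := (Nat.dvd_sub h3 h2)
          have h6 : m + t * u - (m + s * u) = (t - s) * u := by
            rw [Nat.sub_mul]
            omega
          rwa [h6] at h5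
        rcases (Nat.Prime.dvd_mul hpp).1 h4 with h5 | h5
        · have := Nat.le_of_dvd (by omega) h5
          omega
        · have := Nat.le_of_dvd (by omega) h5
          omega
      intro s hs t ht hst
      rw [Function.onFun, Finset.disjoint_left]
      intro p hp hp'
      rw [mem_filter] at hp hp'
      have hs' := mem_range.mp (mem_coe.mp hs)
      have ht' := mem_range.mp (mem_coe.mp ht)
      rcases lt_or_gt_of_ne hst with h | h
      · exact key s t h ht' p hp.1 hp.2 hp'.2
      · exact key t s h hs' p hp.1 hp'.2 hp.2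
  rw [h1]
  have h2 := (sum_le_prod (range N) (fun s => gz W z (m + s * u)) (fun s _ => one_le_gz _ _ _)).1
  rw [card_range] at h2
  linarith

end Pool.Agent.V8H35.RO
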