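import Pool.Agent.V8H35.RO.R2

set_option autoImplicit false

open Finset

namespace Pool.Agent.V8H35.RO

open Pool.Agent.H197R2.PG

/-- the union of the strings `a, a + u, ..., a + l u`, `a ∈ S` -/
def Str (S : Finset ℕ) (u l : ℕ) : Finset ℕ := (S ×ˢ range (l + 1)).image (fun x => x.1 + x.2 * u)

lemma str_inj (S : Finset ℕ) (u l : ℕ) (hu : 1 ≤ u)
    (hsep : ∀ a ∈ S, ∀ b ∈ S, a ≠ b → l * u < Nat.dist a b) :
    Set.InjOn (fun x : ℕ × ℕ => x.1 + x.2 * u) ((S ×ˢ range (l + 1) : Finset (ℕ × ℕ)) : Set (ℕ × ℕ)) := by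
  rintro ⟨a, i⟩ ha ⟨b, j⟩ hb hab
  rw [mem_coe, mem_product, mem_range] at ha hb
  simp only at ha hb hab
  have hab' : a = b := by
    by_contra hne
    have h1 := hsep a ha.1 b hb.1 hne
    have h2 : i * u ≤ l * u := Nat.mul_le_mul_right u (by omega)
    have h3 : j * u ≤ l * u := Nat.mul_le_mul_right u (by omega)
    unfold Nat.dist at h1
    omega
  subst hab'
  have h4 : i * u = j * u := by omega
  have h5 : i = j := Nat.eq_of_mul_eq_mul_right hu h4
  rw [h5]

lemma str_card (S : Finset ℕ) (u l : ℕ) (hu : 1 ≤ u)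
    (hsep : ∀ a ∈ S, ∀ b ∈ S, a ≠ b → l * u < Nat.dist a b) :
    #(Str S u l) = #S * (l + 1) := by
  unfold Str
  rw [card_image_of_injOn (str_inj S u l hu hsep), card_product, card_range]

/-- the sum of the singular factor over the pairs of a union of strings -/
theorem str_sum (W z u l : ℕ) (hu : 1 ≤ u) (hW : 2 ≤ W) (huW : u ≤ W) (hNW : 2 * l + 1 ≤ W)
    (hWz : W ≤ z) (hz : 3 ≤ z) (Y : ℕ) (S : Finset ℕ) (hS : ∀ a ∈ S, a + l * u ≤ Y)
    (hzY : 2 * Real.log Y ≤ z * Real.log z)
    (hsep : ∀ a ∈ S, ∀ b ∈ S, a ≠ b → l * u < Nat.dist a b) :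
    ∑ x ∈ (Str S u l).offDiag, gg (2 * Nat.dist x.1 x.2) ≤
      #S * ((l : ℝ) + 1) ^ 2 * (∑ h ∈ range (l * u + 1), gg (2 * h)) +
      2 * (∏ p ∈ (Icc 1 W).filter Nat.Prime, (1 + 1 / (p : ℝ))) * ((l : ℝ) + 1) *
        (((2 * l + 1 : ℕ) : ℝ) * (#S : ℝ) ^ 2 +
          ∑ x ∈ S.offDiag, GG W z u (2 * l + 1) (Nat.dist x.1 x.2 - l * u)) := by
  classical
  set P : ℝ := ∏ p ∈ (Icc 1 W).filter Nat.Prime, (1 + 1 / (p : ℝ)) with hP
  have hP1 : 1 ≤ P := one_le_prod_one_add _
  set M : ℝ := ∑ h ∈ range (l * u + 1), gg (2 * h) with hM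
  have hgg0 : ∀ h, 0 ≤ gg h := fun h => by linarith [one_le_gg h]
  set T : ℕ → ℕ → ℝ := fun x y => if x = y then 0 else gg (2 * Nat.dist x y) with hT
  have hT0 : ∀ x y, 0 ≤ T x y := by
    intro x y
    simp only [hT]
    split_ifs
    · exact le_refl _
    · exact hgg0 _
  have e1 : ∑ x ∈ (Str S u l).offDiag, gg (2 * Nat.dist x.1 x.2) =
      ∑ x ∈ Str S u l, ∑ y ∈ Str S u l, T x y := by
    rw [← Finset.sum_product']
    have : (Str S u l).offDiag = (Str S u l ×ˢ Str S u l).filter (fun x => x.1 ≠ x.2) := by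
      ext x
      rw [mem_offDiag, mem_filter, mem_product]
      tauto
    rw [this, Finset.sum_filter]
    apply Finset.sum_congr rfl
    intro x _
    simp only [hT]
    by_cases h : x.1 = x.2
    · simp [h]
    · simp [h]
  have hinj := str_inj S u l hu hsep
  have e2 : ∑ x ∈ Str S u l, ∑ y ∈ Str S u l, T x y =
      ∑ a ∈ S, ∑ b ∈ S, ∑ i ∈ range (l + 1), ∑ j ∈ range (l + 1), T (a + i * u) (b + j * u) := by
    unfold Str
    rw [Finset.sum_image hinj, Finset.sum_product]
    apply Finset.sum_congr rfl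
    intro a _
    have e3 : ∀ i ∈ range (l + 1),
        ∑ y ∈ (S ×ˢ range (l + 1)).image (fun x => x.1 + x.2 * u), T (a + i * u) y =
          ∑ b ∈ S, ∑ j ∈ range (l + 1), T (a + i * u) (b + j * u) := by
      intro i _
      rw [Finset.sum_image hinj, Finset.sum_product]
    rw [Finset.sum_congr rfl e3, Finset.sum_comm]
  -- equal strings
  have hdiag : ∀ a ∈ S, ∑ i ∈ range (l + 1), ∑ j ∈ range (l + 1), T (a + i * u) (a + j * u) ≤
      ((l : ℝ) + 1) ^ 2 * M := by
    intro a _
    calc ∑ i ∈ range (l + 1), ∑ j ∈ range (l + 1), T (a + i * u) (a + j * u)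
        ≤ ∑ i ∈ range (l + 1), ∑ j ∈ range (l + 1), M := by
          apply Finset.sum_le_sum
          intro i hi
          apply Finset.sum_le_sum
          intro j hj
          rw [mem_range] at hi hj
          have h2 : i * u ≤ l * u := Nat.mul_le_mul_right u (by omega)
          have h3 : j * u ≤ l * u := Nat.mul_le_mul_right u (by omega)
          simp only [hT]
          split_ifs
          · exact Finset.sum_nonneg (fun h _ => hgg0 _)
          · rw [hM]
            apply Finset.single_le_sum (f := fun h => gg (2 * h)) (fun h _ => hgg0 _)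
            rw [mem_range]
            unfold Nat.dist
            omega
      _ = ((l : ℝ) + 1) ^ 2 * M := by
          simp only [sum_const, card_range, nsmul_eq_mul]
          push_cast
          ring
  -- different strings
  have hoff : ∀ a ∈ S, ∀ b ∈ S, a ≠ b →
      ∑ i ∈ range (l + 1), ∑ j ∈ range (l + 1), T (a + i * u) (b + j * u) ≤
        2 * P * ((l : ℝ) + 1) * (((2 * l + 1 : ℕ) : ℝ) + GG W z u (2 * l + 1) (Nat.dist a b - l * u)) := by
    intro a ha b hb hab
    set m := Nat.dist a b - l * u with hm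
    have hd := hsep a ha b hb hab
    have haY := hS a ha
    have hbY := hS b hb
    have hin : ∀ i ∈ range (l + 1), ∑ j ∈ range (l + 1), T (a + i * u) (b + j * u) ≤
        2 * P * ∑ s ∈ range (2 * l + 1), gz W z (m + s * u) := by
      intro i hi
      rw [mem_range] at hi
      set σ : ℕ → ℕ := fun j => if a < b then l + j - i else l + i - j with hσ
      have hkey : ∀ j ∈ range (l + 1), T (a + i * u) (b + j * u) ≤ 2 * P * gz W z (m + σ j * u) := by
        intro j hj
        rw [mem_range] at hj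
        have h2 : i * u ≤ l * u := Nat.mul_le_mul_right u (by omega)
        have h3 : j * u ≤ l * u := Nat.mul_le_mul_right u (by omega)
        have h4 : Nat.dist (a + i * u) (b + j * u) = m + σ j * u := by
          simp only [hσ]
          rw [hm]
          split_ifs with h
          · rw [Nat.sub_mul, Nat.add_mul]
            unfold Nat.dist at hd ⊢
            omega
          · rw [Nat.sub_mul, Nat.add_mul]
            unfold Nat.dist at hd ⊢
            omega
        have h5 : 0 < Nat.dist (a + i * u) (b + j * u) := by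
          unfold Nat.dist at hd ⊢
          omega
        have h6 : Nat.dist (a + i * u) (b + j * u) ≤ Y := by
          unfold Nat.dist
          omega
        have h7 : T (a + i * u) (b + j * u) = gg (2 * Nat.dist (a + i * u) (b + j * u)) := by
          simp only [hT]
          rw [if_neg]
          intro h8
          rw [h8, Nat.dist_self] at h5
          exact absurd h5 (lt_irrefl 0)
        rw [h7, ← h4]
        apply gg_le_gz W z _ hW hWz hz h5
        refine le_trans ?_ hzY
        have h9 : Real.log (Nat.dist (a + i * u) (b + j * u) : ℕ) ≤ Real.log Y :=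
          Real.log_le_log (by exact_mod_cast h5) (by exact_mod_cast h6)
        linarith
      calc ∑ j ∈ range (l + 1), T (a + i * u) (b + j * u)
          ≤ ∑ j ∈ range (l + 1), 2 * P * gz W z (m + σ j * u) := Finset.sum_le_sum hkey
        _ = 2 * P * ∑ j ∈ range (l + 1), gz W z (m + σ j * u) := by rw [Finset.mul_sum]
        _ ≤ _ := by
          apply mul_le_mul_of_nonneg_left _ (by positivity)
          have hinjσ : Set.InjOn σ ((range (l + 1) : Finset ℕ) : Set ℕ) := by
            intro x hx y hy hxy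
            have hx' := mem_range.mp (mem_coe.mp hx)
            have hy' := mem_range.mp (mem_coe.mp hy)
            simp only [hσ] at hxy
            split_ifs at hxy <;> omega
          rw [← Finset.sum_image (f := fun s => gz W z (m + s * u)) hinjσ]
          apply Finset.sum_le_sum_of_subset_of_nonneg
          · intro s hs
            obtain ⟨j, hj, rfl⟩ := mem_image.mp hs
            rw [mem_range] at hj ⊢
            simp only [hσ]
            split_ifs <;> omega
          · intro s _ _
            linarith [one_le_gz W z (m + s * u)]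
    calc ∑ i ∈ range (l + 1), ∑ j ∈ range (l + 1), T (a + i * u) (b + j * u)
        ≤ ∑ i ∈ range (l + 1), 2 * P * ∑ s ∈ range (2 * l + 1), gz W z (m + s * u) :=
          Finset.sum_le_sum hin
      _ = 2 * P * ((l : ℝ) + 1) * ∑ s ∈ range (2 * l + 1), gz W z (m + s * u) := by
          rw [sum_const, card_range, nsmul_eq_mul]
          push_cast
          ring
      _ ≤ _ := by
          apply mul_le_mul_of_nonneg_left _ (by positivity)
          exact sum_gz W z u (2 * l + 1) m hu huW hNW
  rw [e1, e2]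
  set Q : ℕ → ℕ → ℝ := fun a b => ∑ i ∈ range (l + 1), ∑ j ∈ range (l + 1), T (a + i * u) (b + j * u)
    with hQ
  have e3 : ∑ a ∈ S, ∑ b ∈ S, Q a b = ∑ x ∈ S.offDiag, Q x.1 x.2 + ∑ a ∈ S, Q a a := by
    rw [← Finset.sum_product', ← Finset.diag_union_offDiag, Finset.sum_union (Finset.disjoint_diag_offDiag S),
      add_comm]
    congr 1
    rw [Finset.sum_diag]
  rw [e3]
  have hA : ∑ a ∈ S, Q a a ≤ #S * ((l : ℝ) + 1) ^ 2 * M := by
    calc ∑ a ∈ S, Q a a ≤ ∑ a ∈ S, ((l : ℝ) + 1) ^ 2 * M := Finset.sum_le_sum hdiag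
      _ = _ := by
        rw [sum_const, nsmul_eq_mul]
        ring
  have hB : ∑ x ∈ S.offDiag, Q x.1 x.2 ≤ 2 * P * ((l : ℝ) + 1) *
        (((2 * l + 1 : ℕ) : ℝ) * (#S : ℝ) ^ 2 +
          ∑ x ∈ S.offDiag, GG W z u (2 * l + 1) (Nat.dist x.1 x.2 - l * u)) := by
    calc ∑ x ∈ S.offDiag, Q x.1 x.2 ≤ ∑ x ∈ S.offDiag, 2 * P * ((l : ℝ) + 1) *
          (((2 * l + 1 : ℕ) : ℝ) + GG W z u (2 * l + 1) (Nat.dist x.1 x.2 - l * u)) := by
          apply Finset.sum_le_sum
          intro x hx
          rw [mem_offDiag] at hx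
          exact hoff _ hx.1 _ hx.2.1 hx.2.2
      _ = 2 * P * ((l : ℝ) + 1) * (((2 * l + 1 : ℕ) : ℝ) * (#S.offDiag : ℝ) +
          ∑ x ∈ S.offDiag, GG W z u (2 * l + 1) (Nat.dist x.1 x.2 - l * u)) := by
          rw [← Finset.mul_sum, Finset.sum_add_distrib, sum_const, nsmul_eq_mul]
          ring
      _ ≤ _ := by
          apply mul_le_mul_of_nonneg_left _ (by positivity)
          apply add_le_add _ (le_refl _)
          apply mul_le_mul_of_nonneg_left _ (by positivity)
          have : #S.offDiag ≤ #S * #S := by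
            rw [offDiag_card]
            exact Nat.sub_le _ _
          calc (#S.offDiag : ℝ) ≤ ((#S * #S : ℕ) : ℝ) := by exact_mod_cast this
            _ = (#S : ℝ) ^ 2 := by push_cast; ring
  linarith

end Pool.Agent.V8H35.RO
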